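import Pool.Agent.W312.T3.Stm

set_option autoImplicit false

open Classical

namespace Pool.Agent.W748.T3

open Pool.Agent.W312.T3

/-- the relation on the vertices `> m` -/
def Rgt {V : Type} [LinearOrder V] (G : SimpleGraph V) (m : V) (a b : V) : Prop := G.Adj a b ∧ m < a ∧ m < b

/-- the relation on the vertices `≥ m` -/
def Rge {V : Type} [LinearOrder V] (G : SimpleGraph V) (m : V) (a b : V) : Prop := G.Adj a b ∧ m ≤ a ∧ m ≤ b

lemma remove {V : Type} [LinearOrder V] {G : SimpleGraph V} (hP : PEO G) {m x z : V} (hx : m < x)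
    (h : Relation.ReflTransGen (Rge G m) x z) :
    (m < z → Relation.ReflTransGen (Rgt G m) x z) ∧
      (z = m → ∃ a, m < a ∧ G.Adj m a ∧ Relation.ReflTransGen (Rgt G m) x a) := by
  induction h with
  | refl =>
    refine ⟨fun _ => Relation.ReflTransGen.refl, fun h => ?_⟩
    exact absurd h hx.ne'
  | @tail b c hb hbc ih =>
    obtain ⟨h1, h2, h3⟩ := hbc
    refine ⟨fun hc => ?_, fun hc => ?_⟩
    · rcases h2.eq_or_lt with hbm | hbm
      · obtain ⟨a, ha, hma, hxa⟩ := ih.2 hbm.symm
        by_cases hac : a = c
        · subst hac; exact hxa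
        · refine hxa.tail ⟨?_, ha, hc⟩
          subst hbm
          exact hP m a c ha hc hma h1 hac
      · exact (ih.1 hbm).tail ⟨h1, hbm, hc⟩
    · subst hc
      have hbm : c < b := lt_of_le_of_ne h2 h1.ne'
      exact ⟨b, hbm, h1.symm, ih.1 hbm⟩

lemma conn {V : Type} [LinearOrder V] [Fintype V] {G : SimpleGraph V} (hP : PEO G) (hc : G.Connected) (m : V) :
    ∀ x z, m ≤ x → m ≤ z → Relation.ReflTransGen (Rge G m) x z := by
  induction m using WellFoundedLT.induction with
  | ind m ih =>
    intro x z hx hz
    by_cases hL : ∃ l, l < m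
    · obtain ⟨l, hl, hmax⟩ := Finset.exists_max_image (Finset.univ.filter (· < m)) id
        (by obtain ⟨l, hl⟩ := hL; exact ⟨l, by simpa using hl⟩)
      have hl' : l < m := by simpa using hl
      have hge : ∀ v, l < v → m ≤ v := by
        intro v hv
        by_contra hcon
        push Not at hcon
        have := hmax v (by simpa using hcon)
        exact absurd hv (not_lt.2 this)
      have h1 := (remove hP (hl'.trans_le hx) (ih l hl' x z (hl'.le.trans hx) (hl'.le.trans hz))).1 (hl'.trans_le hz)
      exact Relation.ReflTransGen.mono (fun a b hab => ⟨hab.1, hge a hab.2.1, hge b hab.2.2⟩) _ _ h1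
    · push Not at hL
      have h1 := (SimpleGraph.reachable_iff_reflTransGen x z).1 (hc.preconnected x z)
      exact Relation.ReflTransGen.mono (fun a b hab => ⟨hab, hL a, hL b⟩) _ _ h1

theorem root : S_ROOT := by
  intro V _ _ G hP hc r hr x
  induction x using WellFoundedGT.induction with
  | ind x ih =>
    by_cases hxr : x = r
    · subst hxr
      exact Relation.ReflTransGen.refl
    · have hlt : x < r := lt_of_le_of_ne (hr x) hxr
      have h1 := conn hP hc x x r le_rfl hlt.le
      have hne : ∃ y, x < y ∧ G.Adj x y := by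
        rcases Relation.ReflTransGen.cases_head h1 with h | ⟨c, hc1, _⟩
        · exact absurd h hxr
        · exact ⟨c, lt_of_le_of_ne hc1.2.2 hc1.1.ne, hc1.1⟩
      obtain ⟨y, hy, hmin⟩ := Finset.exists_min_image (Finset.univ.filter (fun y => x < y ∧ G.Adj x y)) id
        (by obtain ⟨l, hl⟩ := hne; exact ⟨l, by simpa using hl⟩)
      have hy' : x < y ∧ G.Adj x y := by simpa using hy
      have hpar : Par G x y := by
        refine ⟨hy', fun z hz => ?_⟩
        exact hmin z (by simp only [Finset.mem_filter, Finset.mem_univ, true_and]; exact hz)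
      exact Relation.ReflTransGen.head hpar (ih y hy'.1)

end Pool.Agent.W748.T3
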